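import Mathlib

/-!
# Ky Fan norms and the partial-trace expressions `L(A,B)`, `R(B)`
-/

open scoped Kronecker Matrix
open Matrix

namespace Pool.Q196.KF

variable {n : ℕ}

/-- The `i`-th singular value (starting at `i = 0`, in decreasing order) of a complex `n × n`
matrix `M`, i.e. of the operator `x ↦ M x` on the Euclidean space `ℂⁿ`. -/
noncomputable def sv (M : Matrix (Fin n) (Fin n) ℂ) (i : ℕ) : ℝ :=
  (Matrix.toEuclideanLin M).singularValues i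

/-- Ky Fan `k`-norm: the sum of the `k` largest singular values. -/
noncomputable def kyFan (k : ℕ) (M : Matrix (Fin n) (Fin n) ℂ) : ℝ :=
  ∑ i ∈ Finset.range k, sv M i

/-- The partial trace over the first tensor factor. -/
def tr1 (M : Matrix (Fin n × Fin n) (Fin n × Fin n) ℂ) : Matrix (Fin n) (Fin n) ℂ :=
  fun j l => ∑ i, M (i, j) (i, l)

/-- `S_A = A ⊗ I + I ⊗ A`. -/
def kSum (A : Matrix (Fin n) (Fin n) ℂ) : Matrix (Fin n × Fin n) (Fin n × Fin n) ℂ :=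
  A ⊗ₖ (1 : Matrix (Fin n) (Fin n) ℂ) + (1 : Matrix (Fin n) (Fin n) ℂ) ⊗ₖ A

/-- `D_B = B ⊗ I - I ⊗ B`. -/
def kDiff (B : Matrix (Fin n) (Fin n) ℂ) : Matrix (Fin n × Fin n) (Fin n × Fin n) ℂ :=
  B ⊗ₖ (1 : Matrix (Fin n) (Fin n) ℂ) - (1 : Matrix (Fin n) (Fin n) ℂ) ⊗ₖ B

/-- `L(A,B) = Tr₁ (S_A D_B)`. -/
def LL (A B : Matrix (Fin n) (Fin n) ℂ) : Matrix (Fin n) (Fin n) ℂ := tr1 (kSum A * kDiff B)

/-- `R(B) = Tr₁ (D_B)`. -/
def RR (B : Matrix (Fin n) (Fin n) ℂ) : Matrix (Fin n) (Fin n) ℂ := tr1 (kDiff B)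

end Pool.Q196.KF
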