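import Pool.Agent.Q196.KF.Tools

open scoped Kronecker Matrix
open Matrix

namespace Pool.Q196.KF

/-- `A = I - 2 e₀ e₀ᵀ` (integer entries). -/
def Az : Matrix (Fin 15) (Fin 15) ℤ := fun i j =>
  if i = j then (if i = 0 then -1 else 1) else 0

/-- `25 (v vᵀ - e₂ e₂ᵀ)`, `v = (4/5) e₀ + (3/5) e₁`. -/
def Bz : Matrix (Fin 15) (Fin 15) ℤ := fun i j =>
  if i = 0 ∧ j = 0 then 16 else if i = 0 ∧ j = 1 then 12 else if i = 1 ∧ j = 0 then 12
  else if i = 1 ∧ j = 1 then 9 else if i = 2 ∧ j = 2 then -25 else 0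

/-- `5 U` for the orthogonal matrix `U` used in the trace duality. -/
def Uz : Matrix (Fin 15) (Fin 15) ℤ := fun i j =>
  if i = 0 ∧ j = 0 then -3 else if i = 0 ∧ j = 1 then -4 else if i = 1 ∧ j = 0 then 4
  else if i = 1 ∧ j = 1 then -3 else if i = j then (if i = 2 then 5 else -5) else 0

/-- the integer version of `L`. -/
def Lz : Matrix (Fin 15) (Fin 15) ℤ :=
  (Az * Bz).trace • (1 : Matrix (Fin 15) (Fin 15) ℤ) - Az.trace • Bz + Bz.trace • Az
    - (15 : ℤ) • (Az * Bz)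

lemma az_sq : Az * Az = 1 := by decide +kernel
lemma az_symm : Azᵀ = Az := by decide +kernel
lemma bz_symm : Bzᵀ = Bz := by decide +kernel
lemma bz_tr : Bz.trace = 0 := by decide +kernel
lemma bz_four : (Bz * Bz) * (Bz * Bz) = (625 : ℤ) • (Bz * Bz) := by decide +kernel
lemma bz_sq_tr : (Bz * Bz).trace = 1250 := by decide +kernel
lemma uz_orth : Uzᵀ * Uz = (25 : ℤ) • (1 : Matrix (Fin 15) (Fin 15) ℤ) := by decide +kernel
lemma ul_tr : (Uz * Lz).trace = 7552 := by decide +kernel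

end Pool.Q196.KF
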