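import Pool.Agent.Q196.KF.Ex

open scoped Kronecker Matrix
open Matrix

namespace Pool.Q196.KF

/-- integer matrices viewed as complex matrices -/
noncomputable def cc (M : Matrix (Fin 15) (Fin 15) ℤ) : Matrix (Fin 15) (Fin 15) ℂ :=
  (Int.castRingHom ℂ).mapMatrix M

lemma cc_mul (M N : Matrix (Fin 15) (Fin 15) ℤ) : cc (M * N) = cc M * cc N := map_mul _ _ _
lemma cc_one : cc 1 = 1 := map_one _
lemma cc_sub (M N : Matrix (Fin 15) (Fin 15) ℤ) : cc (M - N) = cc M - cc N := map_sub _ _ _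
lemma cc_add (M N : Matrix (Fin 15) (Fin 15) ℤ) : cc (M + N) = cc M + cc N := map_add _ _ _
lemma cc_smul (z : ℤ) (M : Matrix (Fin 15) (Fin 15) ℤ) : cc (z • M) = (z : ℂ) • cc M := by
  rw [Int.cast_smul_eq_zsmul]
  exact map_zsmul _ _ _
lemma cc_trace (M : Matrix (Fin 15) (Fin 15) ℤ) : (cc M).trace = (M.trace : ℂ) := by
  simp [cc, Matrix.trace]
lemma cc_transpose (M : Matrix (Fin 15) (Fin 15) ℤ) : cc Mᵀ = (cc M)ᴴ := by
  ext i j
  simp [cc]

lemma trace_toEuclideanLin (M : Matrix (Fin 15) (Fin 15) ℂ) :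
    LinearMap.trace ℂ _ (Matrix.toEuclideanLin M) = M.trace := by
  rw [Matrix.toEuclideanLin_eq_toLin_orthonormal, Matrix.trace_toLin_eq]

lemma cc_LL : LL (cc Az) (cc Bz) = cc Lz := by
  rw [LL_eq, ← cc_mul, cc_trace, cc_trace, cc_trace, Lz, cc_sub, cc_add, cc_sub, cc_smul,
    cc_smul, cc_smul, cc_smul, cc_one]
  norm_num

lemma cc_RR : RR (cc Bz) = (-15 : ℂ) • cc Bz := by
  rw [RR_eq, cc_trace, bz_tr]
  simp

lemma sv_Az : sv (cc Az) 0 = 1 := by
  have h := LinearMap.hasEigenvalue_adjoint_comp_self_sq_singularValues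
    (Matrix.toEuclideanLin (cc Az)) (n := 0) (by simp)
  have h1 : (Matrix.toEuclideanLin (cc Az)).adjoint ∘ₗ (Matrix.toEuclideanLin (cc Az))
      = LinearMap.id := by
    rw [← Matrix.toEuclideanLin_conjTranspose_eq_adjoint, ← Matrix.toLpLin_mul_same,
      ← cc_transpose, az_symm, ← cc_mul, az_sq, cc_one, Matrix.toLpLin_one]
  rw [h1] at h
  obtain ⟨v, hv⟩ := h.exists_hasEigenvector
  have h2 := hv.apply_eq_smul
  have h3 := hv.2
  simp only [LinearMap.id_apply] at h2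
  have h4 : ((1 : ℂ) - ((Matrix.toEuclideanLin (cc Az)).singularValues 0 : ℂ) ^ 2) • v = 0 := by
    rw [sub_smul, one_smul]
    nth_rewrite 1 [h2]
    simp
  rcases smul_eq_zero.mp h4 with h5 | h5
  · have h6 : ((Matrix.toEuclideanLin (cc Az)).singularValues 0) ^ 2 = 1 := by
      have h7 : ((Matrix.toEuclideanLin (cc Az)).singularValues 0 : ℂ) ^ 2 = 1 :=
        (sub_eq_zero.mp h5).symm
      exact_mod_cast h7
    have h8 := (Matrix.toEuclideanLin (cc Az)).singularValues_nonneg 0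
    unfold sv
    nlinarith
  · exact absurd h5 h3

end Pool.Q196.KF

namespace Pool.Q196.KF

lemma RR_cc : RR (cc Bz) = cc ((-15 : ℤ) • Bz) := by
  rw [cc_RR, cc_smul]
  norm_num

lemma R_sq : (Matrix.toEuclideanLin (RR (cc Bz))).adjoint ∘ₗ (Matrix.toEuclideanLin (RR (cc Bz)))
      = Matrix.toEuclideanLin (cc ((225 : ℤ) • (Bz * Bz))) := by
  rw [← Matrix.toEuclideanLin_conjTranspose_eq_adjoint, ← Matrix.toLpLin_mul_same, RR_cc,
    ← cc_transpose, ← cc_mul]
  congr 2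
  rw [Matrix.transpose_smul, bz_symm, Matrix.smul_mul, Matrix.mul_smul, smul_smul]
  norm_num

lemma R_four : Matrix.toEuclideanLin (cc ((225 : ℤ) • (Bz * Bz))) ∘ₗ
      Matrix.toEuclideanLin (cc ((225 : ℤ) • (Bz * Bz)))
      = (140625 : ℂ) • Matrix.toEuclideanLin (cc ((225 : ℤ) • (Bz * Bz))) := by
  rw [← Matrix.toLpLin_mul_same, ← cc_mul, Matrix.smul_mul, Matrix.mul_smul, bz_four, smul_smul,
    smul_smul, ← map_smul]
  congr 1
  rw [cc_smul, cc_smul, smul_smul]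
  norm_num

lemma sv_R (i : ℕ) (hi : i < 15) : sv (RR (cc Bz)) i = (sv (RR (cc Bz)) i) ^ 2 / 375 := by
  have h := LinearMap.hasEigenvalue_adjoint_comp_self_sq_singularValues
    (Matrix.toEuclideanLin (RR (cc Bz))) (n := i) (by simpa using hi)
  rw [R_sq] at h
  obtain ⟨v, hv⟩ := h.exists_hasEigenvector
  have h2 := hv.apply_eq_smul
  have h3 := hv.2
  have h4 := LinearMap.congr_fun R_four v
  rw [LinearMap.comp_apply, LinearMap.smul_apply, h2, map_smul, h2, smul_smul, smul_smul,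
    ← sub_eq_zero, ← sub_smul] at h4
  rcases smul_eq_zero.mp h4 with h5 | h5
  · set s := (Matrix.toEuclideanLin (RR (cc Bz))).singularValues i with hs
    have h6 : (s : ℝ) ^ 2 * s ^ 2 - 140625 * s ^ 2 = 0 := by
      apply Complex.ofReal_injective
      push_cast
      simpa using h5
    have h8 : 0 ≤ s := (Matrix.toEuclideanLin (RR (cc Bz))).singularValues_nonneg i
    have h9 : sv (RR (cc Bz)) i = s := rfl
    rw [h9]
    have h10 : s ^ 2 * ((s - 375) * (s + 375)) = 0 := by nlinarith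
    rcases mul_eq_zero.mp h10 with h11 | h11
    · have : s = 0 := by simpa using h11
      rw [this]; norm_num
    · rcases mul_eq_zero.mp h11 with h12 | h12
      · have : s = 375 := by linarith
        rw [this]; norm_num
      · exfalso; linarith
  · exact absurd h5 h3

lemma kyFan_R : kyFan 15 (RR (cc Bz)) = 750 := by
  have h1 : kyFan 15 (RR (cc Bz)) = (∑ i ∈ Finset.range 15, (sv (RR (cc Bz)) i) ^ 2) / 375 := by
    rw [kyFan, Finset.sum_div]
    exact Finset.sum_congr rfl fun i hi => sv_R i (Finset.mem_range.mp hi)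
  have h2 : ∑ i ∈ Finset.range 15, (sv (RR (cc Bz)) i) ^ 2 = 281250 := by
    unfold sv
    rw [sum_sq_singularValues _ (by simp), R_sq, trace_toEuclideanLin, cc_trace,
      Matrix.trace_smul, bz_sq_tr]
    norm_num
  rw [h1, h2]
  norm_num

lemma U_norm (x : EuclideanSpace ℂ (Fin 15)) :
    ‖Matrix.toEuclideanLin ((1 / 5 : ℂ) • cc Uz) x‖ ≤ ‖x‖ := by
  set U := Matrix.toEuclideanLin ((1 / 5 : ℂ) • cc Uz) with hU
  have h1 : U.adjoint ∘ₗ U = LinearMap.id := by
    rw [hU, ← Matrix.toEuclideanLin_conjTranspose_eq_adjoint, ← Matrix.toLpLin_mul_same,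
      Matrix.conjTranspose_smul, ← cc_transpose, Matrix.smul_mul, Matrix.mul_smul, smul_smul,
      ← cc_mul, uz_orth, cc_smul, cc_one, smul_smul]
    norm_num [Matrix.toLpLin_one]
  have h2 : (‖U x‖ : ℂ) ^ 2 = (‖x‖ : ℂ) ^ 2 := by
    have h3 : inner ℂ x ((U.adjoint ∘ₗ U) x) = ((‖U x‖ : ℂ)) ^ 2 := by
      rw [LinearMap.comp_apply, LinearMap.adjoint_inner_right, inner_self_eq_norm_sq_to_K]
      rfl
    rw [← h3, h1, LinearMap.id_apply, inner_self_eq_norm_sq_to_K]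
    rfl
  have h4 : ‖U x‖ ^ 2 = ‖x‖ ^ 2 := by exact_mod_cast h2
  exact le_of_eq ((pow_left_inj₀ (norm_nonneg _) (norm_nonneg _) two_ne_zero).mp h4)

lemma kyFan_L : 1510 < kyFan 15 (LL (cc Az) (cc Bz)) := by
  have h := re_trace_le_sum (Matrix.toEuclideanLin (LL (cc Az) (cc Bz)))
    (Matrix.toEuclideanLin ((1 / 5 : ℂ) • cc Uz)) U_norm (n := 15) (by simp)
  rw [← Matrix.toLpLin_mul_same, trace_toEuclideanLin, cc_LL, Matrix.smul_mul,
    Matrix.trace_smul, ← cc_mul, cc_trace, ul_tr] at h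
  have h2 : (1510 : ℝ) < ((1 / 5 : ℂ) • (((7552 : ℤ)) : ℂ)).re := by
    norm_num
  unfold kyFan sv
  rw [cc_LL]
  exact lt_of_lt_of_le h2 h

lemma hermA : (cc Az).IsHermitian := by
  rw [Matrix.IsHermitian, ← cc_transpose, az_symm]

lemma hermB : (cc Bz).IsHermitian := by
  rw [Matrix.IsHermitian, ← cc_transpose, bz_symm]

theorem main_a : ∃ A B : Matrix (Fin 15) (Fin 15) ℂ, A.IsHermitian ∧ B.IsHermitian ∧
    2 * sv A 0 * kyFan 15 (RR B) < kyFan 15 (LL A B) := by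
  refine ⟨cc Az, cc Bz, hermA, hermB, ?_⟩
  rw [sv_Az, kyFan_R]
  have := kyFan_L
  linarith

theorem main_b : ∃ A B : Matrix (Fin 15) (Fin 15) ℂ, A.IsHermitian ∧ B.IsHermitian ∧
    2 * ∑ i ∈ Finset.range 15, sv A i * sv (RR B) i < kyFan 15 (LL A B) := by
  obtain ⟨A, B, hA, hB, h⟩ := main_a
  refine ⟨A, B, hA, hB, lt_of_le_of_lt ?_ h⟩
  have h1 : ∑ i ∈ Finset.range 15, sv A i * sv (RR B) i ≤ sv A 0 * kyFan 15 (RR B) := by
    rw [kyFan, Finset.mul_sum]
    refine Finset.sum_le_sum fun i _ => ?_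
    exact mul_le_mul_of_nonneg_right
      ((Matrix.toEuclideanLin A).singularValues_antitone (Nat.zero_le i))
      ((Matrix.toEuclideanLin (RR B)).singularValues_nonneg i)
  linarith

end Pool.Q196.KF
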