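import Pool.Agent.Q196.KF.Defs

open scoped Kronecker Matrix
open Matrix

namespace Pool.Q196.KF

section general

variable {E : Type*} [NormedAddCommGroup E] [InnerProductSpace ℂ E] [FiniteDimensional ℂ E]

lemma sum_sq_singularValues (T : E →ₗ[ℂ] E) {n : ℕ} (hn : Module.finrank ℂ E = n) :
    ∑ i ∈ Finset.range n, (T.singularValues i) ^ 2
      = (LinearMap.trace ℂ E (T.adjoint ∘ₗ T)).re := by
  rw [Finset.sum_range]
  have h := T.isSymmetric_adjoint_comp_self.re_trace_eq_sum_eigenvalues hn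
  simp only [RCLike.re_eq_complex_re] at h
  rw [h]
  exact Finset.sum_congr rfl (fun i _ => T.sq_singularValues_fin hn i)

lemma norm_apply_eigenvectorBasis (T : E →ₗ[ℂ] E) {n : ℕ} (hn : Module.finrank ℂ E = n)
    (i : Fin n) :
    ‖T (T.isSymmetric_adjoint_comp_self.eigenvectorBasis hn i)‖ = T.singularValues i := by
  set b := T.isSymmetric_adjoint_comp_self.eigenvectorBasis hn
  have h1 : ‖T (b i)‖ ^ 2 = (T.singularValues i) ^ 2 := by
    rw [T.sq_singularValues_fin hn i]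
    have h2 := T.isSymmetric_adjoint_comp_self.apply_eigenvectorBasis hn i
    have h3 : inner ℂ (b i) ((T.adjoint ∘ₗ T) (b i)) = ((‖T (b i)‖ : ℂ)) ^ 2 := by
      rw [LinearMap.comp_apply, LinearMap.adjoint_inner_right, inner_self_eq_norm_sq_to_K]
      rfl
    rw [h2, inner_smul_right, inner_self_eq_norm_sq_to_K, b.orthonormal.1 i] at h3
    simp only [RCLike.ofReal_one, one_pow, mul_one] at h3
    refine Complex.ofReal_injective ?_
    rw [Complex.ofReal_pow]
    exact h3.symm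
  have h4 := T.singularValues_nonneg i
  exact (pow_left_inj₀ (norm_nonneg _) h4 two_ne_zero).mp h1

/-- trace duality: `Re tr (U T) ≤` sum of all singular values of `T`, for a contraction `U`. -/
lemma re_trace_le_sum (T U : E →ₗ[ℂ] E) (hU : ∀ x, ‖U x‖ ≤ ‖x‖) {n : ℕ}
    (hn : Module.finrank ℂ E = n) :
    (LinearMap.trace ℂ E (U ∘ₗ T)).re ≤ ∑ i ∈ Finset.range n, T.singularValues i := by
  set b := T.isSymmetric_adjoint_comp_self.eigenvectorBasis hn with hb
  rw [LinearMap.trace_eq_sum_inner _ b, Complex.re_sum, Finset.sum_range]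
  refine Finset.sum_le_sum fun i _ => ?_
  calc (inner ℂ (b i) ((U ∘ₗ T) (b i))).re ≤ ‖inner ℂ (b i) ((U ∘ₗ T) (b i))‖ :=
        Complex.re_le_norm _
    _ ≤ ‖b i‖ * ‖(U ∘ₗ T) (b i)‖ := norm_inner_le_norm _ _
    _ = ‖U (T (b i))‖ := by rw [b.orthonormal.1 i, one_mul]; rfl
    _ ≤ ‖T (b i)‖ := hU _
    _ = T.singularValues i := norm_apply_eigenvectorBasis T hn i

end general

variable {n : ℕ}

lemma kron_tr1 (X Y : Matrix (Fin n) (Fin n) ℂ) : tr1 (X ⊗ₖ Y) = X.trace • Y := by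
  ext j l
  simp [tr1, Matrix.trace, Finset.sum_mul]

lemma tr1_add (X Y : Matrix (Fin n × Fin n) (Fin n × Fin n) ℂ) :
    tr1 (X + Y) = tr1 X + tr1 Y := by
  ext j l
  simp [tr1, Finset.sum_add_distrib]

lemma tr1_sub (X Y : Matrix (Fin n × Fin n) (Fin n × Fin n) ℂ) :
    tr1 (X - Y) = tr1 X - tr1 Y := by
  ext j l
  simp [tr1, Finset.sum_sub_distrib]

lemma RR_eq (B : Matrix (Fin n) (Fin n) ℂ) : RR B = B.trace • 1 - (n : ℂ) • B := by
  simp [RR, kDiff, tr1_sub, kron_tr1]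

lemma LL_eq (A B : Matrix (Fin n) (Fin n) ℂ) :
    LL A B = (A * B).trace • 1 - A.trace • B + B.trace • A - (n : ℂ) • (A * B) := by
  have h : kSum A * kDiff B = (A * B) ⊗ₖ (1 : Matrix (Fin n) (Fin n) ℂ) - A ⊗ₖ B + B ⊗ₖ A
      - (1 : Matrix (Fin n) (Fin n) ℂ) ⊗ₖ (A * B) := by
    simp only [kSum, kDiff, Matrix.add_mul, Matrix.mul_sub, ← Matrix.mul_kronecker_mul,
      Matrix.mul_one, Matrix.one_mul]
    abel
  simp [LL, h, tr1_sub, tr1_add, kron_tr1]

end Pool.Q196.KF
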